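import Pool.Agent.Lib.MP_b5021c_nt.IfaceE5
import Pool.Agent.Lib.MP_b5021c_nt.E1.Snt
import Pool.Agent.Lib.MP_b5021c_nt.B.H09.E2Tpm
import Pool.Agent.Lib.MP_b5021c_nt.B.H16.Tpi
import Pool.Agent.Lib.MP_b5021c_nt.K.H25.Sha

/-!
# Board b5, stage 3, row E5_NBF: no big factor
-/

namespace Pool.Agent.B5.H32

open scoped LaurentPolynomial Topology
open Polynomial Pool.Agent.B5

theorem nbf_re {x y : ℂ} (hy : y ≠ 0) :
    (x * (starRingEnd ℂ) y).re = (x / y).re * ‖y‖ ^ 2 := by
  have h1 : x * (starRingEnd ℂ) y = (x / y) * ((‖y‖ ^ 2 : ℝ) : ℂ) := by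
    rw [Complex.ofReal_pow, ← Complex.mul_conj']
    field_simp
  rw [h1, Complex.re_mul_ofReal]

/-- Row E5_NBF. -/
theorem nbf (hDus : DusS) (hTpf : TpfS) (h1 : Tp1S) (h2 : Tp2S) (h3 : Tp3S) (hI : TpiS)
    (hR : TprS) (hA2 : A2S) (hM : MmulS) (er : EvRS) (zf : ZfinS) : NbfS := by
  classical
  intro O _ _ _ _ P L _ _ _ _ _ phi D S i0 eta h c' n G hF hsmall
  obtain ⟨b, f, e, hu, hG, hdual⟩ := hDus O P L phi D S i0 eta h c' n G hF hsmall
  obtain ⟨lam, hT, hrank⟩ := hTpf O P L phi D S i0 eta h c' n G hF b f e hu hG hdual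
  have hc0 : D.coeff 0 + (eta : RO O) * D.coeff S ≠ 0 := hF.cc.v0
  generalize D.coeff 0 + (eta : RO O) * D.coeff S = c at hT hc0 ⊢
  have hB0 : (res (Ker (co phi i0)) D).coeff 0 = D.coeff 0 := res_coeff _ D 0
  generalize res (Ker (co phi i0)) D = B at hT hrank hB0
  obtain ⟨q, hq, hq0⟩ := h1 O _ 1 lam B c n b f e hT
  have hrec := h2 O _ 1 lam B c n b f e q hT hq
  have hpos := h3 O _ 1 lam B c n b f e q hT hq
  have hsum := hI O _ 1 lam B c n b f e q hT hq hrec
  have hrk := hR O _ 1 lam B c n b f e q hT hq hrec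
  obtain ⟨-, -, hev, hcont⟩ := er O
  obtain ⟨z0, hz0⟩ : ∃ z : Circle, evR z c ≠ 0 := by
    by_contra hcon
    push Not at hcon
    have h5 := zf O c hc0
    have h6 : {z : Circle | evR z c = 0} = Set.univ := Set.eq_univ_of_forall hcon
    rw [h6] at h5
    exact (H49.dense_compl_finite _ h5).nonempty.elim fun x hx => hx (Set.mem_univ x)
  have hrc0 : rsh c ≠ 0 := by
    intro h
    have h7 := hev z0 c
    rw [h, map_zero] at h7
    exact hz0 ((map_eq_zero _).mp h7.symm)
  -- the numerators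
  have hTc : ∀ (i : Fin n) (a : Ker (f i)),
      (q i * cst (rsh c)).coeff a = (q i).coeff a * rsh c := fun i a =>
    H16.tpi_mul_cst _ _ _
  have hTs : ∀ i : Fin n, supp (q i * cst (rsh c)) = supp (q i) := by
    intro i
    ext a
    change (q i * cst (rsh c)).coeff a ≠ 0 ↔ (q i).coeff a ≠ 0
    rw [hTc]
    exact ⟨fun h => left_ne_zero_of_mul h, fun h => mul_ne_zero h hrc0⟩
  have hT0 : ∀ i : Fin n, q i * cst (rsh c) ≠ 0 := by
    intro i h0
    apply hq0 i
    apply AddMonoidAlgebra.ext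
    apply Finsupp.ext
    intro a
    have h5 := hTc i a
    rw [h0] at h5
    have h6 : (q i).coeff a * rsh c = 0 := h5.symm
    exact (mul_eq_zero.mp h6).resolve_right hrc0
  have hTn : ∀ i : Fin n, Npos (q i * cst (rsh c)) := by
    intro i
    constructor
    · have h8 : sharp (cst (rsh c) : AO O (Ker (f i))) = cst c := by
        rw [cst, H25.sharp_single, neg_zero, H25.rsh_rsh]
        rfl
      rw [map_mul, h8, hrec i]
    · intro z u
      have h5 : ev z u (q i * cst (rsh c)) = ev z u (q i) * (starRingEnd ℂ) (evR z c) := by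
        rw [mul_comm, H09.tpm_ev_cst_mul, hev, mul_comm]
      rw [h5]
      by_cases hz : evR z c = 0
      · rw [hz, map_zero, mul_zero]
        simp
      · rw [nbf_re hz]
        exact mul_nonneg (hpos i z u hz) (by positivity)
  have hfl := fun i : Fin n => E1.flagsT (hT0 i) (hTn i)
  choose α hα hFl using hfl
  -- the inequality outside the zeros of `c`
  have hmain : ∀ z : Circle, ∑ s : (Σ i : Fin n, Fin (rk (supp (q i * cst (rsh c))) + 1)),
      ‖evR z ((q s.1).coeff (α s.1 s.2))‖ + ‖evR z c‖ ≤ 2 * ‖evR z (D.coeff 0)‖ := by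
    refine H09.tpm_dense zf c hc0 _ ?_ ?_
    · refine isClosed_le ?_ ?_
      · refine Continuous.add (continuous_finsetSum _ fun s _ => ?_) (hcont c).norm
        exact (hcont _).norm
      · exact continuous_const.mul (hcont _).norm
    · intro z hz
      have hC : 0 < ‖evR z c‖ := norm_pos_iff.mpr hz
      have h5 : ∀ i : Fin n, ∑ k : Fin (rk (supp (q i * cst (rsh c))) + 1),
          ‖evR z ((q i).coeff (α i k))‖ ≤
            ‖evR z c‖ * (evR z ((q i).coeff 0) / evR z c).re := by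
        intro i
        have h6 := hFl i z
        have h7 : ∀ a, evR z ((q i * cst (rsh c)).coeff a) =
            evR z ((q i).coeff a) * (starRingEnd ℂ) (evR z c) := by
          intro a
          rw [hTc, map_mul, hev]
        simp only [h7, norm_mul, RCLike.norm_conj] at h6
        rw [← Finset.sum_mul, nbf_re hz] at h6
        nlinarith
      have h6 := hsum z hz
      rw [Fintype.sum_sigma]
      have h7 : ∑ i : Fin n, ∑ k : Fin (rk (supp (q i * cst (rsh c))) + 1),
          ‖evR z ((q i).coeff (α i k))‖ ≤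
            ∑ i : Fin n, ‖evR z c‖ * (evR z ((q i).coeff 0) / evR z c).re :=
        Finset.sum_le_sum fun i _ => h5 i
      rw [← Finset.mul_sum] at h7
      have h8 : (evR z (B.coeff 0) / evR z c).re ≤ ‖evR z (D.coeff 0)‖ / ‖evR z c‖ := by
        rw [hB0, ← norm_div]
        exact Complex.re_le_norm _
      have h9 : ‖evR z c‖ * (‖evR z (D.coeff 0)‖ / ‖evR z c‖) = ‖evR z (D.coeff 0)‖ := by
        field_simp
      rw [Nat.cast_one] at h6
      have h10 : ∑ i : Fin n, (evR z ((q i).coeff 0) / evR z c).re =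
          2 * (evR z (B.coeff 0) / evR z c).re - 1 := by linarith
      rw [h10] at h7
      have h11 : ‖evR z c‖ * (evR z (B.coeff 0) / evR z c).re ≤ ‖evR z (D.coeff 0)‖ := by
        calc _ ≤ ‖evR z c‖ * (‖evR z (D.coeff 0)‖ / ‖evR z c‖) :=
              mul_le_mul_of_nonneg_left h8 hC.le
          _ = _ := h9
      change ∑ i : Fin n, ∑ k : Fin (rk (supp (q i * cst (rsh c))) + 1),
          ‖evR z ((q i).coeff (α i k))‖ + ‖evR z c‖ ≤ 2 * ‖evR z (D.coeff 0)‖
      nlinarith
  have hD0 : D.coeff 0 ≠ 0 := by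
    intro h0
    have h5 := hmain z0
    rw [h0, map_zero, norm_zero, mul_zero] at h5
    have h6 : 0 ≤ ∑ s : (Σ i : Fin n, Fin (rk (supp (q i * cst (rsh c))) + 1)),
      ‖evR z0 ((q s.1).coeff (α s.1 s.2))‖ := Finset.sum_nonneg fun _ _ => norm_nonneg _
    have h7 : 0 < ‖evR z0 c‖ := norm_pos_iff.mpr hz0
    linarith
  have hA := hA2 O (Option (Σ i : Fin n, Fin (rk (supp (q i * cst (rsh c))) + 1)))
    (fun o => o.elim c fun s => (q s.1).coeff (α s.1 s.2)) (D.coeff 0) 2 hD0 (by
      intro o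
      cases o with
      | none => exact hc0
      | some s =>
        have h5 := hα s.1 s.2
        rw [hTc] at h5
        exact left_ne_zero_of_mul h5) two_pos (by
      intro z
      rw [Fintype.sum_option]
      have h5 := hmain z
      simp only [Option.elim]
      linarith)
  rw [Fintype.sum_option] at hA
  simp only [Option.elim] at hA
  obtain ⟨-, hone, -⟩ := hM O
  have h5 : ((∑ i : Fin n, (1 + rk (supp (q i))) : ℕ) : ℝ) ≤
      ∑ s : (Σ i : Fin n, Fin (rk (supp (q i * cst (rsh c))) + 1)),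
        M ((q s.1).coeff (α s.1 s.2)) := by
    have h6 : ∑ s : (Σ i : Fin n, Fin (rk (supp (q i * cst (rsh c))) + 1)), (1 : ℝ) ≤
        ∑ s : (Σ i : Fin n, Fin (rk (supp (q i * cst (rsh c))) + 1)),
          M ((q s.1).coeff (α s.1 s.2)) := Finset.sum_le_sum fun s _ => hone _
    refine le_trans (le_of_eq ?_) h6
    rw [Fintype.sum_sigma]
    push_cast
    refine Finset.sum_congr rfl fun i _ => ?_
    rw [Finset.sum_const, Finset.card_univ, Fintype.card_fin, hTs i]
    simp
    ring
  have h6 : (Module.finrank ℤ L : ℝ) ≤ 1 + ((∑ i : Fin n, (1 + rk (supp (q i))) : ℕ) : ℝ) := by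
    have : Module.finrank ℤ L ≤ 1 + ∑ i : Fin n, (1 + rk (supp (q i))) := by omega
    exact_mod_cast this
  linarith

end Pool.Agent.B5.H32
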