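import Pool.Agent.Lib.MP_b5021c_nt.IfaceE6Cr
import Pool.Agent.Lib.MP_b5021c_nt.K.H31.Clo

/-!
# Board b5, stage 3, row E6C_PAI: a pair of loads of type B
-/

namespace Pool.Agent.B5.H32

open scoped LaurentPolynomial
open Pool.Agent.B5 Pool.Agent.B5.Clo

/-- Row E6C_PAI. -/
theorem pai (slx : SlxS) (clp : ClpS) (nbf : NbfS) (lsd : LsdS) (g1 : G1pS) (g4 : G4S)
    (e1 : E1S) (mv : MVS) (mm : MmulS) : Pai6S := by
  classical
  intro O _ _ _ _ P L _ _ _ _ _ phi D S i0 e₁ e₂ h θ t hFP h3 hRay hθ hPθ hAdj hmn hG₁ hG₂ hfull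
  have hV : ∀ e : (RO O)ˣ, Gp θ t (D.coeff 0) (D.coeff S) e →
      D.coeff 0 + (e : RO O) * D.coeff S ≠ 0 := by
    rintro e ⟨θ', -, -, hc⟩
    exact ((mv O).2 θ' _ hc).1
  obtain ⟨e, he, hrank, c, n, G, hF, hsel⟩ := slx O P L phi D S i0 e₁ e₂ h hFP.dd h3 hRay
    (hV e₁ hG₁) (hV e₂ hG₂) (Or.inl ⟨hAdj, hmn⟩) hfull
  have hG : Gp θ t (D.coeff 0) (D.coeff S) e := by
    rcases he with rfl | rfl
    · exact hG₁
    · exact hG₂
  obtain ⟨θ', hθ1, hθ2, hcl⟩ := hG
  refine ⟨θ', hθ1, hθ2, hcl.1, ?_⟩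
  have hMV := ((mv O).2 θ' _ hcl).2
  have hMD := ((mv O).2 θ _ hPθ).2
  have hcl' := hcl
  rw [hF.v00] at hcl'
  rcases (e1 O).2 θ' _ _ hcl' with ⟨h1, h2⟩ | ⟨h1, h2⟩
  · -- no big factor
    left
    obtain ⟨h5, h6⟩ := classV_prod e1 mv mm (fun i => (G i).coeff 0) Finset.univ 1 h2
    have hone : ∀ i, 1 ≤ M ((G i).coeff 0) := fun i => (h5 i (Finset.mem_univ i)).1
    have hall : ∀ i, ¬ 1 < M ((G i).coeff 0) := by
      intro i
      have h7 : M ((G i).coeff 0) ≤ ∏ i, M ((G i).coeff 0) := by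
        rw [← Finset.mul_prod_erase Finset.univ _ (Finset.mem_univ i)]
        refine le_mul_of_one_le_right (by linarith [hone i]) ?_
        exact one_le_prod (fun i => M ((G i).coeff 0)) _ (fun i _ => hone i)
      rw [← h6] at h7
      linarith [hone i]
    have h7 := nbf O P L phi D S i0 e h c n G hF hall
    rw [hMV, hMD] at h7
    exact h7
  · right
    obtain ⟨i, _, h5, h6⟩ := classP_prod e1 mv mm (fun i => (G i).coeff 0) Finset.univ θ' h2
    have hMi : M ((G i).coeff 0) = θ' := ((mv O).2 θ' _ h5).2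
    have hMc : M c = 1 := ((mv O).1 1 _ h1).2
    have hbig : big G = {i} := by
      unfold big
      ext j
      rw [Finset.mem_filter, Finset.mem_singleton]
      constructor
      · rintro ⟨_, hj⟩
        by_contra hji
        have h7 := ((mv O).1 1 _ (h6 j (Finset.mem_univ j) hji)).2
        rw [h7] at hj
        exact lt_irrefl _ hj
      · rintro rfl
        exact ⟨Finset.mem_univ _, by rw [hMi]; exact h5.1⟩
    have hcp := (clp O P L phi D S i0 e h c n G hFP hF).2
    have hrk := g1 O P L phi D S i0 e h c n G hF (fun j b _ hpure _ _ => (hcp j).1 hpure)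
    rw [hbig, Finset.sum_singleton] at hrk
    have hK : ∀ B : ℝ, 1 ≤ B → BdP O θ' B →
        (Module.finrank ℤ L : ℝ) ≤ 1 + ((snp phi S i0 G).card : ℝ) + B := by
      intro B hB hBd
      have h7 := (g4 O P L phi D S i0 e h c n G hF i).2 θ' B h5 hB hBd
      have h8 : (Module.finrank ℤ L : ℝ) ≤
          (rk (supp (G i)) : ℝ) + ((snp phi S i0 G).card : ℝ) + 1 := by
        have h9 : Module.finrank ℤ L ≤ rk (supp (G i)) + (snp phi S i0 G).card + 1 := by omega
        exact_mod_cast h9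
      linarith
    rcases hsel with hsn | hns
    · left
      intro B hB hBd
      have h7 := hK B hB hBd
      rw [hsn, Finset.card_empty, Nat.cast_zero] at h7
      linarith
    · right
      have h7 : 2 * θ' ^ 2 ≤ θ ^ 2 := by
        by_contra hlt
        push Not at hlt
        apply hns
        refine ⟨by rw [hbig, Finset.card_singleton], hMc, ?_⟩
        rw [hMV, hMD]
        exact hlt
      refine ⟨h7, ?_⟩
      intro B hB hBd
      have h8 := hK B hB hBd
      have h9 := lsd O P L phi D S i0 e h c n G hF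
      rw [hbig, Finset.prod_singleton, hMi, hMV, hMD] at h9
      have h10 : ((snp phi S i0 G).card : ℝ) ≤ 5 := by
        have h11 : ((snp phi S i0 G).card : ℝ) + 1 ≤ 6 := by
          by_contra hgt
          push Not at hgt
          have h12 : 0 < θ' := by linarith [hcl.1]
          nlinarith
        linarith
      linarith

end Pool.Agent.B5.H32
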